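import Mathlib
import Pool.Agent.Lib.MP_b69e89_co.Complete

/-!
# MP_b69e89_co : closed form for small excess or few vertices

For every genus `g` and every admissible pair `(l, d)` with `l ≤ 2 g + 1`, or such that the complete
graph on `2 l - d` vertices embeds on `S_g` (in particular if `2 l - d ≤ 4`, if `g ≥ 1` and
`2 l - d ≤ 7`, or if `n (n - 3) / 2 ≤ 2 g + 1` for `n = 2 l - d`):
`|K_g(2l-d, 3l-d)| = (6l-2d)! / (2^(3l-d) (3l-d)!) [x^(6l-2d)] (e^x - 1 - x - x^2/2)^(2l-d)`.
-/

namespace Pool.Agent.Results.MP_b69e89_co.ClosedFormRange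

open KernelCount

theorem result (g l d : ℕ) (hd : d ≤ 2 * l)
    (h : l ≤ 2 * g + 1 ∨ 2 * l - d ≤ 4 ∨ (1 ≤ g ∧ 2 * l - d ≤ 7) ∨
      (2 * l - d).choose 2 ≤ (2 * l - d) + 2 * g + 1 ∨
      EmbedsOn g (fun p : {p : Sym2 (Fin (2 * l - d)) // ¬ p.IsDiag} =>
        (p : Sym2 (Fin (2 * l - d))))) :
    kernelCount g (2 * l - d) (3 * l - d) = closed (2 * l - d) (3 * l - d) := by
  rcases h with h | h | h | h | h
  · exact kernelCount_of_excess (by omega)
  · exact kernelCount_of_complete h (K4_embeds g) _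
  · exact kernelCount_of_complete h.2 (K7_embeds h.1) _
  · exact kernelCount_of_complete le_rfl (complete_of_choose h) _
  · exact kernelCount_of_complete le_rfl h _

end Pool.Agent.Results.MP_b69e89_co.ClosedFormRange
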